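import Pool.Agent.U581.LB.StmQ
import Pool.Agent.U251.LB.C

/-!
Project LQ, package RM: measurability of the paths.
-/

set_option autoImplicit false

namespace Pool.Agent.U901.LB

open Real MeasureTheory Filter Topology Pool.Agent.U581.BM Pool.Agent.U581.LB Pool.Agent.U251.LB

theorem t_RM : Pool.Agent.U581.LB.S_RM := by
  intro _ _ ρ T M L
  have hc : Continuous fun z => polygon M (ext0 M z) := polygon_cont M fun i => ext0_cont M i
  have hmul : Measurable fun x : ℝ => T * x := measurable_const_mul T
  constructor
  · have hz : ∀ i : ℕ, Measurable fun R : ℝ => (Pc (R + ρ * (i / M)) - Pc R) / (√R * sg ρ) := by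
      intro i
      exact ((Pc_meas.comp (measurable_id.add_const _)).sub Pc_meas).div
        ((Real.continuous_sqrt.measurable).mul_const _)
    have hv := vec_meas M (c := fun R (i : ℕ) => (Pc (R + ρ * (i / M)) - Pc R) / (√R * sg ρ)) hz
    have h1 := (hc.measurable.comp hv).comp hmul
    have e : (fun x => pathR ρ M (T * x)) = ((fun z => polygon M (ext0 M z)) ∘ fun R =>
        vec M (fun i : ℕ => (Pc (R + ρ * (i / M)) - Pc R) / (√R * sg ρ))) ∘ fun x => T * x := by
      funext x
      show pathR ρ M (T * x) = polygon M (ext0 M (vec M _))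
      rw [polygon_vec]
      rfl
    rw [e]
    exact h1
  · have hz : ∀ i : ℕ, Measurable fun R : ℝ =>
        (UN (L ^ 2) (R + ρ * (i / M)) - UN (L ^ 2) R) / sg ρ := fun i =>
      (wL_cont ρ M (L ^ 2) i).measurable
    have hv := vec_meas M (c := fun R (i : ℕ) =>
      (UN (L ^ 2) (R + ρ * (i / M)) - UN (L ^ 2) R) / sg ρ) hz
    have h1 := (hc.measurable.comp hv).comp hmul
    have e : (fun x => pathU ρ M L (T * x)) = ((fun z => polygon M (ext0 M z)) ∘ fun R =>
        vec M (fun i : ℕ => (UN (L ^ 2) (R + ρ * (i / M)) - UN (L ^ 2) R) / sg ρ)) ∘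
          fun x => T * x := by
      funext x
      show pathU ρ M L (T * x) = polygon M (ext0 M (vec M _))
      rw [polygon_vec]
      rfl
    rw [e]
    exact h1

end Pool.Agent.U901.LB
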